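import Mathlib

/-!
# Riesz-Thorin between `2` and `∞` for vector valued half-line convolution operators (helper62)

`S_ω f (y) = α(ω) f(y) + ∫_0^∞ k(ω,u) f(y+u) du` on `L^p(e^y dy)`, values in `L²(dρ(ω))`.
If `∫ |S f|² ≤ A ∫ |f|²` and `∫ |S_ω f(y)|² dρ(ω) ≤ B` for `|f| ≤ 1`, then
`∫ (∫ |S_ω f|² dρ)^{p/2} e^y dy ≤ A B^{p/2-1} ∫ |f|^p e^y dy` for `p ≥ 2`.
-/

set_option autoImplicit false
set_option linter.unusedSectionVars false

open MeasureTheory Set Filter Topology

noncomputable section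

namespace Helper62.RTV

variable {Ω : Type*} [MeasurableSpace Ω]

/-- the operators -/
def Sv (α : Ω → ℝ) (k : Ω → ℝ → ℝ) (f : ℝ → ℂ) (ω : Ω) (y : ℝ) : ℂ :=
  ((α ω : ℝ) : ℂ) * f y + ∫ u in Ioi (0 : ℝ), ((k ω u : ℝ) : ℂ) * f (y + u)

/-- holomorphy of a parametric integral over a finite measure. -/
theorem holo {α : Type*} [MeasurableSpace α] (μ : Measure α) [IsFiniteMeasure μ]
    (U : Set ℂ) (hU : IsOpen U) (K : ℂ → α → ℂ) (C : ℝ)
    (hm : ∀ z ∈ U, AEStronglyMeasurable (K z) μ)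
    (hd : ∀ᵐ x ∂μ, DifferentiableOn ℂ (fun z => K z x) U)
    (hC : ∀ᵐ x ∂μ, ∀ z ∈ U, ‖K z x‖ ≤ C) :
    DifferentiableOn ℂ (fun z => ∫ x, K z x ∂μ) U := by
  intro z0 hz0
  obtain ⟨r, hr, hball⟩ := Metric.isOpen_iff.mp hU z0 hz0
  have hr2 : 0 < r / 2 := by positivity
  have hr4 : 0 < r / 4 := by positivity
  have hsub : ∀ z ∈ Metric.ball z0 (r / 2), Metric.closedBall z (r / 4) ⊆ U := by
    intro z hz w hw
    apply hball
    rw [Metric.mem_ball] at hz ⊢
    rw [Metric.mem_closedBall] at hw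
    calc dist w z0 ≤ dist w z + dist z z0 := dist_triangle _ _ _
      _ < r := by linarith
  have hmemU : ∀ z ∈ Metric.ball z0 (r / 2), z ∈ U := fun z hz =>
    hsub z hz (Metric.mem_closedBall_self hr4.le)
  have hderiv : ∀ᵐ x ∂μ, ∀ z ∈ Metric.ball z0 (r / 2),
      HasDerivAt (fun w => K w x) (deriv (fun w => K w x) z) z := by
    filter_upwards [hd] with x hx z hz
    exact (hx.differentiableAt (hU.mem_nhds (hmemU z hz))).hasDerivAt
  have hF'm : AEStronglyMeasurable (fun x => deriv (fun w => K w x) z0) μ := by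
    set a : ℕ → ℂ := fun k => ((r / 4 / ((k : ℝ) + 1) : ℝ) : ℂ) with ha
    have ha0 : ∀ k, a k ≠ 0 := by
      intro k
      rw [ha]
      simp only [ne_eq, Complex.ofReal_eq_zero]
      positivity
    have halim : Tendsto a atTop (𝓝[≠] 0) := by
      rw [tendsto_nhdsWithin_iff]
      refine ⟨?_, Filter.Eventually.of_forall ha0⟩
      have h1 : Tendsto (fun k : ℕ => r / 4 / ((k : ℝ) + 1)) atTop (𝓝 0) := by
        have h2 := (tendsto_one_div_add_atTop_nhds_zero_nat (𝕜 := ℝ)).const_mul (r / 4)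
        rw [mul_zero] at h2
        refine h2.congr fun k => ?_
        ring
      have h3 := (Complex.continuous_ofReal.tendsto 0).comp h1
      rwa [Complex.ofReal_zero] at h3
    have hmem : ∀ k, z0 + a k ∈ U := by
      intro k
      apply hsub z0 (Metric.mem_ball_self hr2)
      rw [Metric.mem_closedBall, dist_self_add_left, ha]
      simp only [Complex.norm_real, Real.norm_eq_abs]
      rw [abs_of_pos (by positivity)]
      have : (0 : ℝ) ≤ k := Nat.cast_nonneg k
      exact div_le_self hr4.le (by linarith)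
    refine aestronglyMeasurable_of_tendsto_ae atTop (f := fun (k : ℕ) x =>
      (a k)⁻¹ • (K (z0 + a k) x - K z0 x)) (fun k => ?_) ?_
    · exact ((hm _ (hmem k)).sub (hm _ hz0)).const_smul (a k)⁻¹
    · filter_upwards [hderiv] with x hx
      have h1 := (hx z0 (Metric.mem_ball_self hr2)).tendsto_slope_zero
      exact h1.comp halim
  have hbound : ∀ᵐ x ∂μ, ∀ z ∈ Metric.ball z0 (r / 2),
      ‖deriv (fun w => K w x) z‖ ≤ C / (r / 4) := by
    filter_upwards [hd, hC] with x hx hCx z hz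
    apply Complex.norm_deriv_le_of_forall_mem_sphere_norm_le hr4
    · apply DifferentiableOn.diffContOnCl
      refine hx.mono ?_
      exact Metric.closure_ball_subset_closedBall.trans (hsub z hz)
    · intro w hw
      exact hCx w (hsub z hz (Metric.sphere_subset_closedBall hw))
  have hmev : ∀ᶠ z in 𝓝 z0, AEStronglyMeasurable (K z) μ := by
    filter_upwards [hU.mem_nhds hz0] with z hz using hm z hz
  have hint : Integrable (K z0) μ := by
    refine (integrable_const C).mono' (hm z0 hz0) ?_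
    filter_upwards [hC] with x hx using hx z0 hz0
  have key := hasDerivAt_integral_of_dominated_loc_of_deriv_le (μ := μ) (F := K)
    (F' := fun z x => deriv (fun w => K w x) z) (x₀ := z0) (s := Metric.ball z0 (r / 2))
    (bound := fun _ => C / (r / 4)) (Metric.ball_mem_nhds z0 hr2) hmev hint hF'm hbound
    (integrable_const _) hderiv
  exact key.2.differentiableAt.differentiableWithinAt

/-! ### measurability and bounds -/

/-- regularised power of modulus -/
def rg (ε : ℝ) (w : ℂ) (v : ℝ) : ℂ := Complex.exp (w * ((Real.log (v + ε) : ℝ) : ℂ))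

theorem rg_norm (ε : ℝ) (hε : 0 < ε) (w : ℂ) (v : ℝ) (hv : 0 ≤ v) :
    ‖rg ε w v‖ = (v + ε) ^ w.re := by
  unfold rg
  rw [Complex.norm_exp, Real.rpow_def_of_pos (by linarith)]
  congr 1
  rw [Complex.mul_re, Complex.ofReal_re, Complex.ofReal_im]
  ring

theorem rg_real (ε : ℝ) (hε : 0 < ε) (s : ℝ) (v : ℝ) (hv : 0 ≤ v) :
    rg ε (s : ℂ) v = (((v + ε) ^ s : ℝ) : ℂ) := by
  unfold rg
  rw [Real.rpow_def_of_pos (by linarith)]
  push_cast
  congr 1
  ring

theorem rg_bound (ε : ℝ) (hε : 0 < ε) (w : ℂ) (W : ℝ) (hw : |w.re| ≤ W) (v Vm : ℝ) (hv : 0 ≤ v)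
    (hV : v ≤ Vm) : ‖rg ε w v‖ ≤ Real.exp (W * (|Real.log ε| + |Real.log (Vm + ε)|)) := by
  unfold rg
  rw [Complex.norm_exp]
  apply Real.exp_le_exp.mpr
  have h1 : (w * ((Real.log (v + ε) : ℝ) : ℂ)).re = w.re * Real.log (v + ε) := by
    rw [Complex.mul_re, Complex.ofReal_re, Complex.ofReal_im]
    ring
  rw [h1]
  refine (le_abs_self _).trans ?_
  rw [abs_mul]
  have hW : 0 ≤ W := (abs_nonneg _).trans hw
  refine mul_le_mul hw ?_ (abs_nonneg _) hW
  have h2 : Real.log ε ≤ Real.log (v + ε) := Real.log_le_log hε (by linarith)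
  have h3 : Real.log (v + ε) ≤ Real.log (Vm + ε) := Real.log_le_log (by linarith) (by linarith)
  rw [abs_le]
  constructor
  · have := neg_abs_le (Real.log ε)
    have := abs_nonneg (Real.log (Vm + ε))
    linarith
  · have := le_abs_self (Real.log (Vm + ε))
    have := abs_nonneg (Real.log ε)
    linarith

theorem rg_hol (ε : ℝ) (c d : ℂ) (v : ℝ) : Differentiable ℂ (fun z => rg ε (c * z + d) v) := by
  unfold rg
  fun_prop

theorem rg_cont (ε : ℝ) (hε : 0 < ε) (w : ℂ) (v : ℝ → ℝ) (hv : Continuous v) (hv0 : ∀ y, 0 ≤ v y) :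
    Continuous (fun y => rg ε w (v y)) := by
  unfold rg
  have : Continuous fun y => Real.log (v y + ε) := by
    apply Continuous.log
    · fun_prop
    · intro y
      have := hv0 y
      positivity
  fun_prop

theorem rg_meas (ε : ℝ) (w : ℂ) (v : ℝ → ℝ) (hv : Measurable v) :
    Measurable (fun y => rg ε w (v y)) := by
  unfold rg
  have h1 : Measurable fun y => Real.log (v y + ε) := (Real.measurable_log).comp (hv.add_const ε)
  have h2 : Measurable fun y => ((Real.log (v y + ε) : ℝ) : ℂ) :=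
    Complex.measurable_ofReal.comp h1
  exact Complex.measurable_exp.comp (h2.const_mul w)

section basic

variable (α : Ω → ℝ) (k : Ω → ℝ → ℝ) (M : ℝ)

theorem Sv_meas (hα : Measurable α) (hk : Measurable (Function.uncurry k)) (f : ℝ → ℂ)
    (hf : Continuous f) : Measurable (fun q : Ω × ℝ => Sv α k f q.1 q.2) := by
  unfold Sv
  apply Measurable.add
  · have h1 : Measurable fun q : Ω × ℝ => ((α q.1 : ℝ) : ℂ) :=
      Complex.measurable_ofReal.comp (hα.comp measurable_fst)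
    exact h1.mul (hf.measurable.comp measurable_snd)
  · have h1 : Measurable fun r : (Ω × ℝ) × ℝ => ((k r.1.1 r.2 : ℝ) : ℂ) * f (r.1.2 + r.2) := by
      apply Measurable.mul
      · apply Complex.measurable_ofReal.comp
        exact hk.comp ((measurable_fst.comp measurable_fst).prodMk measurable_snd)
      · exact hf.measurable.comp ((measurable_snd.comp measurable_fst).add measurable_snd)
    have h2 := h1.stronglyMeasurable.integral_prod_right' (ν := volume.restrict (Ioi (0 : ℝ)))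
    exact h2.measurable

variable (hM : 0 ≤ M) (hα : ∀ ω, |α ω| ≤ M) (hk : ∀ ω u, |k ω u| ≤ M)

include hM hα hk

theorem Sv_bound (f : ℝ → ℂ) (hf : Continuous f) (hfc : HasCompactSupport f) (C : ℝ)
    (hC : ∀ y, ‖f y‖ ≤ C) (ω : Ω) (y : ℝ) :
    ‖Sv α k f ω y‖ ≤ M * C + M * ∫ x, ‖f x‖ := by
  unfold Sv
  have hC0 : 0 ≤ C := (norm_nonneg _).trans (hC 0)
  refine (norm_add_le _ _).trans (add_le_add ?_ ?_)
  · rw [norm_mul, Complex.norm_real, Real.norm_eq_abs]
    exact mul_le_mul (hα ω) (hC y) (norm_nonneg _) hM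
  · have hi : Integrable f := hf.integrable_of_hasCompactSupport hfc
    have hi2 : Integrable fun u => ‖f (y + u)‖ := (hi.norm.comp_add_left y)
    calc ‖∫ u in Ioi (0 : ℝ), ((k ω u : ℝ) : ℂ) * f (y + u)‖
        ≤ ∫ u in Ioi (0 : ℝ), M * ‖f (y + u)‖ := by
          apply norm_integral_le_of_norm_le
          · exact (hi2.const_mul M).integrableOn
          · refine Filter.Eventually.of_forall fun u => ?_
            rw [norm_mul, Complex.norm_real, Real.norm_eq_abs]
            exact mul_le_mul_of_nonneg_right (hk ω u) (norm_nonneg _)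
      _ ≤ ∫ u, M * ‖f (y + u)‖ := by
          apply setIntegral_le_integral (hi2.const_mul M)
          exact Filter.Eventually.of_forall fun u => by positivity
      _ = M * ∫ x, ‖f x‖ := by
          rw [integral_const_mul]
          congr 1
          exact integral_add_left_eq_self (fun x => ‖f x‖) y

end basic

section core

variable (ρ : Measure Ω) (α : Ω → ℝ) (k : Ω → ℝ → ℝ) (p ε : ℝ) (f : ℝ → ℂ)

/-- the analytic family -/
def fzz (z : ℂ) (y : ℝ) : ℂ :=
  f y * rg ε (-((p / 4 : ℝ) : ℂ) * z + ((p / 4 - 1 / 2 : ℝ) : ℂ)) (‖f y‖ ^ 2)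

/-- the square function -/
def Vf (y : ℝ) : ℝ := ∫ ω, ‖Sv α k f ω y‖ ^ 2 ∂ρ

/-- the integrand -/
def Kz (z : ℂ) (q : ℝ × Ω) : ℂ :=
  ((Real.exp q.1 : ℝ) : ℂ) * (starRingEnd ℂ) (Sv α k f q.2 q.1) *
    rg ε (((p / 4 : ℝ) : ℂ) * z + ((p / 4 - 1 / 2 : ℝ) : ℂ)) (Vf ρ α k f q.1) *
    Sv α k (fzz p ε f z) q.2 q.1

/-- the open strip -/
def U : Set ℂ := {z : ℂ | -1 < z.re ∧ z.re < 2}

theorem isOpen_U : IsOpen U := by
  have h1 : IsOpen {z : ℂ | -1 < z.re} := isOpen_lt continuous_const Complex.continuous_re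
  have h2 : IsOpen {z : ℂ | z.re < 2} := isOpen_lt Complex.continuous_re continuous_const
  exact h1.inter h2

variable {α k ρ p ε f}

theorem Vf_nonneg (y : ℝ) : 0 ≤ Vf ρ α k f y := by
  unfold Vf
  exact integral_nonneg fun ω => by positivity

theorem Sv_meas' (hα : Measurable α) (hk : Measurable (Function.uncurry k)) (hf : Continuous f) :
    Measurable (fun q : ℝ × Ω => Sv α k f q.2 q.1) :=
  (Sv_meas α k hα hk f hf).comp measurable_swap

theorem Vf_meas [SFinite ρ] (hα : Measurable α) (hk : Measurable (Function.uncurry k))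
    (hf : Continuous f) : Measurable (Vf ρ α k f) := by
  have h1 : Measurable fun q : ℝ × Ω => ‖Sv α k f q.2 q.1‖ ^ 2 :=
    (Sv_meas' hα hk hf).norm.pow_const 2
  exact (h1.stronglyMeasurable.integral_prod_right' (ν := ρ)).measurable

theorem Vf_bound [IsFiniteMeasure ρ] (C : ℝ)
    (hC : ∀ ω y, ‖Sv α k f ω y‖ ≤ C) (y : ℝ) : Vf ρ α k f y ≤ C ^ 2 * ρ.real univ := by
  unfold Vf
  have hb : ∀ ω, ‖Sv α k f ω y‖ ^ 2 ≤ C ^ 2 := fun ω => pow_le_pow_left₀ (norm_nonneg _) (hC ω y) 2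
  have h1 : ‖∫ ω, ‖Sv α k f ω y‖ ^ 2 ∂ρ‖ ≤ C ^ 2 * ρ.real univ := by
    apply norm_integral_le_of_norm_le_const
    refine Filter.Eventually.of_forall fun ω => ?_
    rw [Real.norm_eq_abs, abs_of_nonneg (by positivity)]
    exact hb ω
  exact (Real.le_norm_self _).trans h1

theorem fzz_cont (hε : 0 < ε) (hf : Continuous f) (z : ℂ) : Continuous (fzz p ε f z) := by
  unfold fzz
  exact hf.mul (rg_cont ε hε _ _ (hf.norm.pow 2) fun y => by positivity)

theorem fzz_supp (hfc : HasCompactSupport f) (z : ℂ) : HasCompactSupport (fzz p ε f z) := by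
  unfold fzz
  exact hfc.mul_right

theorem fzz_bound (hε : 0 < ε) (hp : 0 ≤ p) (C : ℝ) (hC : ∀ y, ‖f y‖ ≤ C) (z : ℂ) (hz : z ∈ U)
    (y : ℝ) : ‖fzz p ε f z y‖ ≤
      C * Real.exp ((p + 1) * (|Real.log ε| + |Real.log (C ^ 2 + ε)|)) := by
  unfold fzz
  rw [norm_mul]
  have hC0 : 0 ≤ C := (norm_nonneg _).trans (hC 0)
  refine mul_le_mul (hC y) ?_ (norm_nonneg _) hC0
  apply rg_bound ε hε
  · have e : (-((p / 4 : ℝ) : ℂ) * z + ((p / 4 - 1 / 2 : ℝ) : ℂ)).re = -(p / 4) * z.re + (p / 4 - 1 / 2) := by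
      rw [Complex.add_re, Complex.mul_re, Complex.ofReal_re]
      simp
    rw [e, abs_le]
    obtain ⟨h1, h2⟩ := hz
    constructor <;> nlinarith
  · positivity
  · exact pow_le_pow_left₀ (norm_nonneg _) (hC y) 2

theorem fzz_hol (y : ℝ) : Differentiable ℂ (fun z => fzz p ε f z y) := by
  unfold fzz
  exact (rg_hol ε _ _ _).const_mul _

/-- truncation of the half line -/
theorem Sv_trunc (g : ℝ → ℂ) (L : ℝ) (hL : ∀ x, L < x → g x = 0) (T y : ℝ) (hT : L - y ≤ T)
    (ω : Ω) : Sv α k g ω y = ((α ω : ℝ) : ℂ) * g y + ∫ u in Ioc (0 : ℝ) T, ((k ω u : ℝ) : ℂ) * g (y + u) := by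
  unfold Sv
  congr 1
  apply setIntegral_eq_of_subset_of_forall_sdiff_eq_zero measurableSet_Ioi Ioc_subset_Ioi_self
  intro u hu
  have h1 : T < u := by
    by_contra hc
    exact hu.2 ⟨hu.1, not_lt.mp hc⟩
  rw [hL (y + u) (by linarith), mul_zero]

theorem exists_L (hfc : HasCompactSupport f) : ∃ L : ℝ, ∀ x, L < x → f x = 0 := by
  obtain ⟨L, hL⟩ := hfc.isCompact.bddAbove
  refine ⟨L, fun x hx => ?_⟩
  by_contra hc
  have : x ∈ tsupport f := subset_tsupport _ hc
  have := hL this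
  linarith

theorem Sv_hol (hε : 0 < ε) (hp : 0 ≤ p) (hf : Continuous f) (hfc : HasCompactSupport f) (C : ℝ)
    (hC : ∀ y, ‖f y‖ ≤ C) (M : ℝ) (hM : 0 ≤ M) (hk : Measurable (Function.uncurry k))
    (hkM : ∀ ω u, |k ω u| ≤ M) (ω : Ω) (y : ℝ) :
    DifferentiableOn ℂ (fun z => Sv α k (fzz p ε f z) ω y) U := by
  obtain ⟨L, hL⟩ := exists_L hfc
  have e : (fun z => Sv α k (fzz p ε f z) ω y) = fun z => ((α ω : ℝ) : ℂ) * fzz p ε f z y +
      ∫ u in Ioc (0 : ℝ) (L - y), ((k ω u : ℝ) : ℂ) * fzz p ε f z (y + u) := by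
    funext z
    apply Sv_trunc _ L _ _ _ le_rfl
    intro x hx
    unfold fzz
    rw [hL x hx, zero_mul]
  rw [e]
  apply DifferentiableOn.add
  · exact ((fzz_hol y).const_mul _).differentiableOn
  · refine holo (volume.restrict (Ioc (0 : ℝ) (L - y))) U isOpen_U
      (fun z u => ((k ω u : ℝ) : ℂ) * fzz p ε f z (y + u))
      (M * (C * Real.exp ((p + 1) * (|Real.log ε| + |Real.log (C ^ 2 + ε)|)))) ?_ ?_ ?_
    · intro z _
      apply AEStronglyMeasurable.mul
      · apply Measurable.aestronglyMeasurable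
        exact Complex.measurable_ofReal.comp (hk.comp measurable_prodMk_left)
      · exact ((fzz_cont hε hf z).comp (continuous_const.add continuous_id)).aestronglyMeasurable
    · refine Filter.Eventually.of_forall fun u => ?_
      exact ((fzz_hol (y + u)).const_mul _).differentiableOn
    · refine Filter.Eventually.of_forall fun u z hz => ?_
      rw [norm_mul, Complex.norm_real, Real.norm_eq_abs]
      exact mul_le_mul (hkM ω u) (fzz_bound hε hp C hC z hz _) (norm_nonneg _) hM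

theorem Cauchy {β : Type*} [MeasurableSpace β] (μ : Measure β) (a b : β → ℝ)
    (ha : Integrable (fun x => a x ^ 2) μ) (hb : Integrable (fun x => b x ^ 2) μ)
    (hab : Integrable (fun x => a x * b x) μ) :
    ∫ x, a x * b x ∂μ ≤ Real.sqrt ((∫ x, a x ^ 2 ∂μ) * ∫ x, b x ^ 2 ∂μ) := by
  apply Real.le_sqrt_of_sq_le
  set X := ∫ x, a x ^ 2 ∂μ with hX
  set Y := ∫ x, b x ^ 2 ∂μ with hY
  set Z := ∫ x, a x * b x ∂μ with hZ
  have hX0 : 0 ≤ X := integral_nonneg fun x => by positivity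
  have hY0 : 0 ≤ Y := integral_nonneg fun x => by positivity
  have key : ∀ t : ℝ, 0 ≤ t ^ 2 * X + 2 * t * Z + Y := by
    intro t
    have e : t ^ 2 * X + 2 * t * Z + Y = ∫ x, (t * a x + b x) ^ 2 ∂μ := by
      rw [hX, hY, hZ, ← integral_const_mul, ← integral_const_mul, ← integral_add, ← integral_add]
      · apply integral_congr_ae
        refine Filter.Eventually.of_forall fun x => ?_
        simp only []
        ring
      · exact (ha.const_mul _).add (hab.const_mul _)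
      · exact hb
      · exact ha.const_mul _
      · exact hab.const_mul _
    rw [e]
    exact integral_nonneg fun x => by positivity
  by_cases hXz : X = 0
  · have h1 := key (-Z)
    have h2 : Z = 0 := by
      by_contra hc
      have h3 : 0 < Z ^ 2 := by positivity
      have h4 := key (-(Y + 1) / (2 * Z))
      rw [hXz] at h4
      have h5 : (-(Y + 1) / (2 * Z)) ^ 2 * 0 + 2 * (-(Y + 1) / (2 * Z)) * Z + Y = -1 := by
        field_simp
        ring
      rw [h5] at h4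
      linarith
    rw [h2, hXz]
    simp
  · have hXp : 0 < X := lt_of_le_of_ne hX0 (Ne.symm hXz)
    have h1 := key (-Z / X)
    have h2 : (-Z / X) ^ 2 * X + 2 * (-Z / X) * Z + Y = Y - Z ^ 2 / X := by
      field_simp
      ring
    rw [h2] at h1
    have h3 : Z ^ 2 / X ≤ Y := by linarith
    rw [div_le_iff₀ hXp] at h3
    linarith

theorem int_bdd {β : Type*} [MeasurableSpace β] {E : Type*} [NormedAddCommGroup E] (μ : Measure β)
    [IsFiniteMeasure μ] (g : β → E) (hg : AEStronglyMeasurable g μ) (C : ℝ)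
    (hC : ∀ᵐ x ∂μ, ‖g x‖ ≤ C) : Integrable g μ :=
  (integrable_const C).mono' hg hC

end core

section main

variable (ρ : Measure Ω) [IsFiniteMeasure ρ] (α : Ω → ℝ) (k : Ω → ℝ → ℝ) (M : ℝ)
  (hM : 0 ≤ M) (hα : Measurable α) (hk : Measurable (Function.uncurry k))
  (hαM : ∀ ω, |α ω| ≤ M) (hkM : ∀ ω u, |k ω u| ≤ M)
  (A B : ℝ) (hA : 0 ≤ A) (hB : 0 ≤ B)
  (h2 : ∀ f : ℝ → ℂ, Continuous f → HasCompactSupport f →
    Integrable (fun y => Real.exp y * Vf ρ α k f y) ∧
      ∫ y, Real.exp y * Vf ρ α k f y ≤ A * ∫ y, Real.exp y * ‖f y‖ ^ 2)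
  (hi : ∀ f : ℝ → ℂ, Continuous f → HasCompactSupport f → (∀ y, ‖f y‖ ≤ 1) →
    ∀ y, Vf ρ α k f y ≤ B)
  (p : ℝ) (hp : 2 ≤ p) (ε : ℝ) (hε : 0 < ε) (f : ℝ → ℂ) (hf : Continuous f)
  (hfc : HasCompactSupport f) (R : ℝ)

include hM hαM hkM hp hε hf hfc in
theorem bounds : ∃ C : ℝ, 0 ≤ C ∧ (∀ y, ‖f y‖ ≤ C) ∧ (∀ ω y, ‖Sv α k f ω y‖ ≤ C) ∧
    (∀ y, Vf ρ α k f y ≤ C) ∧ (∀ z ∈ U, ∀ ω y, ‖Sv α k (fzz p ε f z) ω y‖ ≤ C) ∧
    (∀ z ∈ U, ∀ y, ‖rg ε (((p / 4 : ℝ) : ℂ) * z + ((p / 4 - 1 / 2 : ℝ) : ℂ)) (Vf ρ α k f y)‖ ≤ C) := by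
  obtain ⟨C0, hC0⟩ := hfc.exists_bound_of_continuous hf
  have hC00 : 0 ≤ C0 := (norm_nonneg _).trans (hC0 0)
  obtain ⟨C1, hC1⟩ : ∃ C1 : ℝ, ∀ ω y, ‖Sv α k f ω y‖ ≤ C1 :=
    ⟨_, Sv_bound α k M hM hαM hkM f hf hfc C0 hC0⟩
  obtain ⟨C2, hC2⟩ : ∃ C2 : ℝ, ∀ y, Vf ρ α k f y ≤ C2 :=
    ⟨_, Vf_bound C1 hC1⟩
  -- the family
  set E : ℝ := Real.exp ((p + 1) * (|Real.log ε| + |Real.log (C0 ^ 2 + ε)|)) with hE
  have hE0 : 0 < E := Real.exp_pos _
  obtain ⟨C3, hC3⟩ : ∃ C3 : ℝ, ∀ z ∈ U, ∀ ω y, ‖Sv α k (fzz p ε f z) ω y‖ ≤ C3 := by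
    refine ⟨M * (C0 * E) + M * (E * ∫ x, ‖f x‖), fun z hz ω y => ?_⟩
    have h1 := Sv_bound α k M hM hαM hkM (fzz p ε f z) (fzz_cont hε hf z) (fzz_supp hfc z)
      (C0 * E) (fzz_bound hε (by linarith) C0 hC0 z hz) ω y
    refine h1.trans (add_le_add le_rfl (mul_le_mul_of_nonneg_left ?_ hM))
    rw [← integral_const_mul]
    apply integral_mono
    · exact ((fzz_cont hε hf z).integrable_of_hasCompactSupport (fzz_supp hfc z)).norm
    · exact ((hf.integrable_of_hasCompactSupport hfc).norm.const_mul E)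
    · intro x
      simp only []
      unfold fzz
      rw [norm_mul, mul_comm]
      refine mul_le_mul_of_nonneg_right ?_ (norm_nonneg _)
      apply rg_bound ε hε
      · have e : (-((p / 4 : ℝ) : ℂ) * z + ((p / 4 - 1 / 2 : ℝ) : ℂ)).re =
            -(p / 4) * z.re + (p / 4 - 1 / 2) := by
          rw [Complex.add_re, Complex.mul_re, Complex.ofReal_re]
          simp
        rw [e, abs_le]
        obtain ⟨h1, h2⟩ := hz
        constructor <;> nlinarith
      · positivity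
      · exact pow_le_pow_left₀ (norm_nonneg _) (hC0 x) 2
  obtain ⟨C4, hC4⟩ : ∃ C4 : ℝ, ∀ z ∈ U, ∀ y,
      ‖rg ε (((p / 4 : ℝ) : ℂ) * z + ((p / 4 - 1 / 2 : ℝ) : ℂ)) (Vf ρ α k f y)‖ ≤ C4 := by
    refine ⟨_, fun z hz y => rg_bound ε hε _ (p + 1) ?_ _ C2 (Vf_nonneg y) (hC2 y)⟩
    have e : (((p / 4 : ℝ) : ℂ) * z + ((p / 4 - 1 / 2 : ℝ) : ℂ)).re =
        (p / 4) * z.re + (p / 4 - 1 / 2) := by
      rw [Complex.add_re, Complex.mul_re, Complex.ofReal_re]
      simp
    rw [e, abs_le]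
    obtain ⟨h1, h2⟩ := hz
    constructor <;> nlinarith
  refine ⟨|C0| + |C1| + |C2| + |C3| + |C4|, by positivity, ?_, ?_, ?_, ?_, ?_⟩
  · intro y
    have := hC0 y
    have := le_abs_self C0
    have := abs_nonneg C1
    have := abs_nonneg C2
    have := abs_nonneg C3
    have := abs_nonneg C4
    linarith
  · intro ω y
    have := hC1 ω y
    have := le_abs_self C1
    have := abs_nonneg C0
    have := abs_nonneg C2
    have := abs_nonneg C3
    have := abs_nonneg C4
    linarith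
  · intro y
    have := hC2 y
    have := le_abs_self C2
    have := abs_nonneg C0
    have := abs_nonneg C1
    have := abs_nonneg C3
    have := abs_nonneg C4
    linarith
  · intro z hz ω y
    have := hC3 z hz ω y
    have := le_abs_self C3
    have := abs_nonneg C0
    have := abs_nonneg C1
    have := abs_nonneg C2
    have := abs_nonneg C4
    linarith
  · intro z hz y
    have := hC4 z hz y
    have := le_abs_self C4
    have := abs_nonneg C0
    have := abs_nonneg C1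
    have := abs_nonneg C2
    have := abs_nonneg C3
    linarith

/-- the cut off measure -/
def mR (R : ℝ) : Measure (ℝ × Ω) := (volume.restrict (Icc (-R) R)).prod ρ

instance (R : ℝ) : IsFiniteMeasure (mR ρ R) := by
  unfold mR
  infer_instance

omit [IsFiniteMeasure ρ] in
theorem mR_ae [SFinite ρ] (R : ℝ) : ∀ᵐ q ∂(mR ρ R), q.1 ∈ Icc (-R) R := by
  unfold mR
  exact Measure.quasiMeasurePreserving_fst.ae (ae_restrict_mem measurableSet_Icc)

/-- the analytic function -/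
def Fz (z : ℂ) : ℂ := ∫ q, Kz ρ α k p ε f z q ∂(mR ρ R)

include hα hk hε hf in
theorem Kz_meas (z : ℂ) : Measurable (Kz ρ α k p ε f z) := by
  unfold Kz
  apply Measurable.mul
  · apply Measurable.mul
    · apply Measurable.mul
      · exact Complex.measurable_ofReal.comp (Real.measurable_exp.comp measurable_fst)
      · exact Complex.continuous_conj.measurable.comp (Sv_meas' hα hk hf)
    · exact (rg_meas ε _ _ (Vf_meas hα hk hf)).comp measurable_fst
  · exact Sv_meas' hα hk (fzz_cont hε hf z)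

include hM hα hk hαM hkM hp hε hf hfc in
theorem Fz_three :
    DiffContOnCl ℂ (Fz ρ α k p ε f R) (Complex.HadamardThreeLines.verticalStrip 0 1) ∧
    BddAbove ((norm ∘ (Fz ρ α k p ε f R)) '' Complex.HadamardThreeLines.verticalClosedStrip 0 1) ∧
    ∃ C : ℝ, ∀ z ∈ U, ∀ᵐ q ∂(mR ρ R), ‖Kz ρ α k p ε f z q‖ ≤ C := by
  obtain ⟨C, hC0, hC1, hC2, hC3, hC4, hC5⟩ := bounds ρ α k M hM hαM hkM p hp ε hε f hf hfc
  have hb : ∀ᵐ q ∂(mR ρ R), ∀ z ∈ U, ‖Kz ρ α k p ε f z q‖ ≤ Real.exp R * C * C * C := by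
    filter_upwards [mR_ae ρ R] with q hq z hz
    unfold Kz
    rw [norm_mul, norm_mul, norm_mul, Complex.norm_real, RCLike.norm_conj, Real.norm_eq_abs,
      abs_of_pos (Real.exp_pos _)]
    have h1 : Real.exp q.1 ≤ Real.exp R := Real.exp_le_exp.mpr hq.2
    have h2 := hC2 q.2 q.1
    have h3 := hC5 z hz q.1
    have h4 := hC4 z hz q.2 q.1
    gcongr
  have hd : DifferentiableOn ℂ (Fz ρ α k p ε f R) U := by
    unfold Fz
    refine holo (mR ρ R) U isOpen_U (fun z q => Kz ρ α k p ε f z q) _ ?_ ?_ hb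
    · intro z _
      exact (Kz_meas ρ α k hα hk p ε hε f hf z).aestronglyMeasurable
    · refine Filter.Eventually.of_forall fun q => ?_
      unfold Kz
      refine DifferentiableOn.mul ?_ (Sv_hol hε (by linarith) hf hfc C hC1 M hM hk hkM _ _)
      exact ((rg_hol ε _ _ _).const_mul _).differentiableOn
  have hcl : closure (Complex.HadamardThreeLines.verticalStrip 0 1) ⊆ U := by
    intro z hz
    have h1 : closure (Complex.HadamardThreeLines.verticalStrip 0 1) ⊆
        {z : ℂ | 0 ≤ z.re ∧ z.re ≤ 1} := by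
      apply closure_minimal
      · intro w hw
        exact ⟨hw.1.le, hw.2.le⟩
      · exact (isClosed_le continuous_const Complex.continuous_re).inter
          (isClosed_le Complex.continuous_re continuous_const)
    obtain ⟨h2, h3⟩ := h1 hz
    exact ⟨by linarith, by linarith⟩
  refine ⟨(hd.mono hcl).diffContOnCl, ?_, ⟨Real.exp R * C * C * C, fun z hz => ?_⟩⟩
  · refine ⟨Real.exp R * C * C * C * (mR ρ R).real univ, ?_⟩
    rintro _ ⟨z, hz, rfl⟩
    have hzU : z ∈ U := by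
      obtain ⟨h2, h3⟩ := hz
      exact ⟨by linarith, by linarith⟩
    simp only [Function.comp_apply]
    unfold Fz
    apply norm_integral_le_of_norm_le_const
    filter_upwards [hb] with q hq using hq z hzU
  · filter_upwards [hb] with q hq using hq z hz

omit [IsFiniteMeasure ρ] in
theorem int_mR [IsFiniteMeasure ρ] {E : Type*} [NormedAddCommGroup E] [NormedSpace ℝ E] (g : ℝ × Ω → E)
    (hg : AEStronglyMeasurable g (mR ρ R)) (C : ℝ) (hC : ∀ q : ℝ × Ω, q.1 ∈ Icc (-R) R → ‖g q‖ ≤ C) :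
    Integrable g (mR ρ R) ∧ ∫ q, g q ∂(mR ρ R) = ∫ x in Icc (-R) R, ∫ ω, g (x, ω) ∂ρ := by
  have h1 : Integrable g (mR ρ R) := by
    refine int_bdd _ g hg C ?_
    filter_upwards [mR_ae ρ R] with q hq using hC q hq
  refine ⟨h1, ?_⟩
  unfold mR at h1 ⊢
  exact integral_prod g h1

/-- the three integrals -/
def I1 (ε R : ℝ) : ℝ := ∫ x in Icc (-R) R, Real.exp x * (Vf ρ α k f x * (Vf ρ α k f x + ε) ^ (p / 2 - 1))

/-- the three integrals -/
def J1 (ε R : ℝ) : ℝ := ∫ x in Icc (-R) R, Real.exp x * (Vf ρ α k f x + ε) ^ (p / 2)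

/-- the three integrals -/
def N1 (ε : ℝ) (f : ℝ → ℂ) (p : ℝ) : ℝ :=
  ∫ x, Real.exp x * (‖f x‖ ^ 2 * (‖f x‖ ^ 2 + ε) ^ (p / 2 - 1))

theorem re_pos (p : ℝ) (z : ℂ) : (((p / 4 : ℝ) : ℂ) * z + ((p / 4 - 1 / 2 : ℝ) : ℂ)).re =
    (p / 4) * z.re + (p / 4 - 1 / 2) := by
  rw [Complex.add_re, Complex.mul_re, Complex.ofReal_re]
  simp

theorem re_neg (p : ℝ) (z : ℂ) : (-((p / 4 : ℝ) : ℂ) * z + ((p / 4 - 1 / 2 : ℝ) : ℂ)).re =
    -(p / 4) * z.re + (p / 4 - 1 / 2) := by
  rw [Complex.add_re, Complex.mul_re, Complex.ofReal_re]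
  simp

include hM hα hk hαM hkM hp hε hf hfc in
/-- value at `θ`. -/
theorem Fz_theta : Fz ρ α k p ε f R ((1 - 2 / p : ℝ) : ℂ) = ((I1 ρ α k p f ε R : ℝ) : ℂ) := by
  obtain ⟨C, hC0, hC1, hC2, hC3, hC4, hC5⟩ := bounds ρ α k M hM hαM hkM p hp ε hε f hf hfc
  have hp0 : p ≠ 0 := by linarith
  have hθU : ((1 - 2 / p : ℝ) : ℂ) ∈ U := by
    have h1 : 0 < 2 / p := by positivity
    have h2 : 2 / p ≤ 1 := by rw [div_le_one (by linarith)]; exact hp
    constructor
    · rw [Complex.ofReal_re]; linarith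
    · rw [Complex.ofReal_re]; linarith
  have e1 : fzz p ε f ((1 - 2 / p : ℝ) : ℂ) = f := by
    funext y
    unfold fzz rg
    have : (-((p / 4 : ℝ) : ℂ) * ((1 - 2 / p : ℝ) : ℂ) + ((p / 4 - 1 / 2 : ℝ) : ℂ)) = 0 := by
      rw [← Complex.ofReal_neg, ← Complex.ofReal_mul, ← Complex.ofReal_add, Complex.ofReal_eq_zero]
      field_simp
      ring
    rw [this, zero_mul, Complex.exp_zero, mul_one]
  have e2 : ∀ v : ℝ, 0 ≤ v →
      rg ε (((p / 4 : ℝ) : ℂ) * ((1 - 2 / p : ℝ) : ℂ) + ((p / 4 - 1 / 2 : ℝ) : ℂ)) v =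
        (((v + ε) ^ (p / 2 - 1) : ℝ) : ℂ) := by
    intro v hv
    rw [← rg_real ε hε _ v hv]
    congr 1
    rw [← Complex.ofReal_mul, ← Complex.ofReal_add]
    congr 1
    field_simp
    ring
  have e3 : ∀ q : ℝ × Ω, Kz ρ α k p ε f ((1 - 2 / p : ℝ) : ℂ) q =
      ((Real.exp q.1 * (Vf ρ α k f q.1 + ε) ^ (p / 2 - 1) * ‖Sv α k f q.2 q.1‖ ^ 2 : ℝ) : ℂ) := by
    intro q
    unfold Kz
    rw [e1, e2 _ (Vf_nonneg _)]
    have h1 : (starRingEnd ℂ) (Sv α k f q.2 q.1) * Sv α k f q.2 q.1 =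
        ((‖Sv α k f q.2 q.1‖ ^ 2 : ℝ) : ℂ) := by
      rw [mul_comm, Complex.mul_conj, Complex.normSq_eq_norm_sq]
    rw [show ((Real.exp q.1 : ℝ) : ℂ) * (starRingEnd ℂ) (Sv α k f q.2 q.1) *
        (((Vf ρ α k f q.1 + ε) ^ (p / 2 - 1) : ℝ) : ℂ) * Sv α k f q.2 q.1 =
        ((Real.exp q.1 : ℝ) : ℂ) * (((Vf ρ α k f q.1 + ε) ^ (p / 2 - 1) : ℝ) : ℂ) *
          ((starRingEnd ℂ) (Sv α k f q.2 q.1) * Sv α k f q.2 q.1) from by ring, h1]
    push_cast
    ring
  unfold Fz
  have h3 := int_mR ρ R (Kz ρ α k p ε f ((1 - 2 / p : ℝ) : ℂ))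
    (Kz_meas ρ α k hα hk p ε hε f hf _).aestronglyMeasurable (Real.exp R * C * C * C) (by
      intro q hq
      unfold Kz
      rw [norm_mul, norm_mul, norm_mul, Complex.norm_real, RCLike.norm_conj, Real.norm_eq_abs,
        abs_of_pos (Real.exp_pos _)]
      have h1 : Real.exp q.1 ≤ Real.exp R := Real.exp_le_exp.mpr hq.2
      have h2 := hC2 q.2 q.1
      have h3 := hC5 _ hθU q.1
      have h4 := hC4 _ hθU q.2 q.1
      gcongr)
  rw [h3.2]
  unfold I1
  rw [← integral_complex_ofReal]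
  apply integral_congr_ae
  refine Filter.Eventually.of_forall fun x => ?_
  simp only []
  rw [show (fun ω => Kz ρ α k p ε f ((1 - 2 / p : ℝ) : ℂ) (x, ω)) = fun ω =>
    (((Real.exp x * (Vf ρ α k f x + ε) ^ (p / 2 - 1)) * ‖Sv α k f ω x‖ ^ 2 : ℝ) : ℂ) from
    funext fun ω => e3 (x, ω)]
  rw [integral_complex_ofReal, integral_const_mul]
  congr 1
  unfold Vf
  ring

include hα hk hf in
theorem Sv_sm (x : ℝ) : Measurable (fun ω => Sv α k f ω x) :=
  (Sv_meas' hα hk hf).comp measurable_prodMk_left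

include hM hα hk hαM hkM h2 hA hp hε hf hfc in
/-- the line `Re z = 0`. -/
theorem Fz_zero (z : ℂ) (hz : z.re = 0) :
    ‖Fz ρ α k p ε f R z‖ ≤ Real.sqrt (A * N1 ε f p * I1 ρ α k p f ε R) := by
  obtain ⟨C, hC0, hC1, hC2, hC3, hC4, hC5⟩ := bounds ρ α k M hM hαM hkM p hp ε hε f hf hfc
  have hzU : z ∈ U := ⟨by linarith, by linarith⟩
  set g := fzz p ε f z with hg
  have hgc : Continuous g := fzz_cont hε hf z
  have hgs : HasCompactSupport g := fzz_supp hfc z
  set a : ℝ × Ω → ℝ := fun q => Real.sqrt (Real.exp q.1) * ‖Sv α k g q.2 q.1‖ with ha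
  set b : ℝ × Ω → ℝ := fun q => Real.sqrt (Real.exp q.1) *
    (‖Sv α k f q.2 q.1‖ * (Vf ρ α k f q.1 + ε) ^ (p / 4 - 1 / 2)) with hb
  have hVm := Vf_meas (ρ := ρ) hα hk hf
  have hVe : ∀ y, 0 < Vf ρ α k f y + ε := fun y => by
    have := Vf_nonneg (ρ := ρ) (α := α) (k := k) (f := f) y
    linarith
  have hma : Measurable a := by
    rw [ha]
    exact ((Real.continuous_sqrt.measurable.comp Real.measurable_exp).comp measurable_fst).mul
      (Sv_meas' hα hk hgc).norm
  have hmb : Measurable b := by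
    rw [hb]
    refine ((Real.continuous_sqrt.measurable.comp Real.measurable_exp).comp measurable_fst).mul ?_
    exact (Sv_meas' hα hk hf).norm.mul (((hVm.add_const ε).pow_const _).comp measurable_fst)
  have hKab : ∀ q, ‖Kz ρ α k p ε f z q‖ = a q * b q := by
    intro q
    unfold Kz
    rw [norm_mul, norm_mul, norm_mul, Complex.norm_real, RCLike.norm_conj, Real.norm_eq_abs,
      abs_of_pos (Real.exp_pos _), rg_norm ε hε _ _ (Vf_nonneg _), re_pos, hz, mul_zero, zero_add]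
    rw [ha, hb]
    simp only []
    have h1 := Real.mul_self_sqrt (Real.exp_pos q.1).le
    calc Real.exp q.1 * ‖Sv α k f q.2 q.1‖ * (Vf ρ α k f q.1 + ε) ^ (p / 4 - 1 / 2) *
          ‖Sv α k g q.2 q.1‖
        = (Real.sqrt (Real.exp q.1) * Real.sqrt (Real.exp q.1)) * ‖Sv α k f q.2 q.1‖ *
          (Vf ρ α k f q.1 + ε) ^ (p / 4 - 1 / 2) * ‖Sv α k g q.2 q.1‖ := by rw [h1]
      _ = _ := by ring
  have hbR : ∀ q : ℝ × Ω, q.1 ∈ Icc (-R) R → Real.exp q.1 ≤ Real.exp R := fun q hq =>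
    Real.exp_le_exp.mpr hq.2
  have hS : ∀ q : ℝ × Ω, Real.sqrt (Real.exp q.1) ^ 2 = Real.exp q.1 := fun q =>
    Real.sq_sqrt (Real.exp_pos _).le
  -- the square of `a`
  have ha2 := int_mR ρ R (fun q => a q ^ 2) (hma.pow_const 2).aestronglyMeasurable
    (Real.exp R * C ^ 2) (by
      intro q hq
      have h1 := hC4 z hzU q.2 q.1
      rw [Real.norm_eq_abs, abs_of_nonneg (by positivity)]
      simp only [ha]
      rw [mul_pow, hS]
      have h2 : ‖Sv α k g q.2 q.1‖ ^ 2 ≤ C ^ 2 := pow_le_pow_left₀ (norm_nonneg _) h1 2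
      have h3 := hbR q hq
      gcongr)
  have hb2 := int_mR ρ R (fun q => b q ^ 2) (hmb.pow_const 2).aestronglyMeasurable
    (Real.exp R * (C * C) ^ 2) (by
      intro q hq
      have h1 := hC2 q.2 q.1
      have h5 := hC5 z hzU q.1
      rw [rg_norm ε hε _ _ (Vf_nonneg _), re_pos, hz, mul_zero, zero_add] at h5
      rw [Real.norm_eq_abs, abs_of_nonneg (by positivity)]
      simp only [hb]
      rw [mul_pow, hS]
      have h0 : 0 ≤ (Vf ρ α k f q.1 + ε) ^ (p / 4 - 1 / 2) := Real.rpow_nonneg (hVe _).le _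
      have h2 : ‖Sv α k f q.2 q.1‖ * (Vf ρ α k f q.1 + ε) ^ (p / 4 - 1 / 2) ≤ C * C :=
        mul_le_mul h1 h5 h0 hC0
      have h3 := hbR q hq
      have h4 : (‖Sv α k f q.2 q.1‖ * (Vf ρ α k f q.1 + ε) ^ (p / 4 - 1 / 2)) ^ 2 ≤ (C * C) ^ 2 :=
        pow_le_pow_left₀ (by positivity) h2 2
      gcongr)
  have hab : Integrable (fun q => a q * b q) (mR ρ R) := by
    obtain ⟨D, hD⟩ := (Fz_three ρ α k M hM hα hk hαM hkM p hp ε hε f hf hfc R).2.2
    refine int_bdd _ _ (hma.mul hmb).aestronglyMeasurable D ?_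
    filter_upwards [hD z hzU] with q hq
    rw [← hKab q, Real.norm_eq_abs, abs_of_nonneg (norm_nonneg _)]
    exact hq
  have h5 : ‖Fz ρ α k p ε f R z‖ ≤ ∫ q, a q * b q ∂(mR ρ R) := by
    unfold Fz
    refine (norm_integral_le_integral_norm _).trans (le_of_eq ?_)
    exact integral_congr_ae (Filter.Eventually.of_forall fun q => hKab q)
  refine h5.trans ((Cauchy (mR ρ R) a b ha2.1 hb2.1 hab).trans ?_)
  apply Real.sqrt_le_sqrt
  have hX : ∫ q, a q ^ 2 ∂(mR ρ R) ≤ A * N1 ε f p := by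
    rw [ha2.2]
    have e1 : ∀ x, ∫ ω, a (x, ω) ^ 2 ∂ρ = Real.exp x * Vf ρ α k g x := by
      intro x
      simp only [ha]
      simp_rw [mul_pow, Real.sq_sqrt (Real.exp_pos _).le]
      rw [integral_const_mul]
      rfl
    simp_rw [e1]
    obtain ⟨h6, h7⟩ := h2 g hgc hgs
    refine (setIntegral_le_integral h6 (Filter.Eventually.of_forall fun x =>
      mul_nonneg (Real.exp_pos _).le (Vf_nonneg _))).trans (h7.trans ?_)
    refine mul_le_mul_of_nonneg_left (le_of_eq ?_) hA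
    unfold N1
    apply integral_congr_ae
    refine Filter.Eventually.of_forall fun x => ?_
    simp only []
    congr 1
    rw [hg]
    unfold fzz
    rw [norm_mul, mul_pow, rg_norm ε hε _ _ (by positivity), re_neg, hz, mul_zero, zero_add,
      ← Real.rpow_natCast (_ ^ (p / 4 - 1 / 2)) 2, ← Real.rpow_mul (by positivity)]
    congr 2
    push_cast
    ring
  have hY : ∫ q, b q ^ 2 ∂(mR ρ R) = I1 ρ α k p f ε R := by
    rw [hb2.2]
    unfold I1
    apply integral_congr_ae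
    refine Filter.Eventually.of_forall fun x => ?_
    simp only [hb]
    simp_rw [mul_pow, Real.sq_sqrt (Real.exp_pos _).le]
    have hpw : ((Vf ρ α k f x + ε) ^ (p / 4 - 1 / 2)) ^ 2 = (Vf ρ α k f x + ε) ^ (p / 2 - 1) := by
      rw [← Real.rpow_natCast (_ ^ (p / 4 - 1 / 2)) 2, ← Real.rpow_mul (hVe x).le]
      congr 1
      push_cast
      ring
    rw [integral_const_mul, integral_mul_const, hpw]
    rfl
  rw [hY]
  refine mul_le_mul_of_nonneg_right hX ?_
  unfold I1
  refine integral_nonneg fun x => ?_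
  have := hVe x
  have := Vf_nonneg (ρ := ρ) (α := α) (k := k) (f := f) x
  positivity

include hM hα hk hαM hkM hi hB hp hε hf hfc in
/-- the line `Re z = 1`. -/
theorem Fz_one (z : ℂ) (hz : z.re = 1) :
    ‖Fz ρ α k p ε f R z‖ ≤ Real.sqrt B * J1 ρ α k p f ε R := by
  obtain ⟨C, hC0, hC1, hC2, hC3, hC4, hC5⟩ := bounds ρ α k M hM hαM hkM p hp ε hε f hf hfc
  have hzU : z ∈ U := ⟨by linarith, by linarith⟩
  set g := fzz p ε f z with hg
  have hgc : Continuous g := fzz_cont hε hf z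
  have hgs : HasCompactSupport g := fzz_supp hfc z
  have hVm := Vf_meas (ρ := ρ) hα hk hf
  have hVe : ∀ y, 0 < Vf ρ α k f y + ε := fun y => by
    have := Vf_nonneg (ρ := ρ) (α := α) (k := k) (f := f) y
    linarith
  have hg1 : ∀ y, ‖g y‖ ≤ 1 := by
    intro y
    rw [hg]
    unfold fzz
    rw [norm_mul, rg_norm ε hε _ _ (by positivity), re_neg, hz]
    have e : -(p / 4) * 1 + (p / 4 - 1 / 2) = -(1 / 2 : ℝ) := by ring
    rw [e, Real.rpow_neg (by positivity), ← Real.sqrt_eq_rpow, ← div_eq_mul_inv]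
    rw [div_le_one (by positivity)]
    apply Real.le_sqrt_of_sq_le
    linarith
  have hVg : ∀ y, Vf ρ α k g y ≤ B := hi g hgc hgs hg1
  have hbR : ∀ q : ℝ × Ω, q.1 ∈ Icc (-R) R → Real.exp q.1 ≤ Real.exp R := fun q hq =>
    Real.exp_le_exp.mpr hq.2
  have hKn : ∀ q : ℝ × Ω, ‖Kz ρ α k p ε f z q‖ = Real.exp q.1 *
      (Vf ρ α k f q.1 + ε) ^ (p / 2 - 1 / 2) * (‖Sv α k f q.2 q.1‖ * ‖Sv α k g q.2 q.1‖) := by
    intro q
    unfold Kz
    rw [norm_mul, norm_mul, norm_mul, Complex.norm_real, RCLike.norm_conj, Real.norm_eq_abs,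
      abs_of_pos (Real.exp_pos _), rg_norm ε hε _ _ (Vf_nonneg _), re_pos, hz]
    have e : p / 4 * 1 + (p / 4 - 1 / 2) = p / 2 - 1 / 2 := by ring
    rw [e]
    ring
  have h3 := int_mR ρ R (fun q => ‖Kz ρ α k p ε f z q‖)
    (Kz_meas ρ α k hα hk p ε hε f hf _).norm.aestronglyMeasurable (Real.exp R * C * C * C) (by
      intro q hq
      rw [norm_norm]
      unfold Kz
      rw [norm_mul, norm_mul, norm_mul, Complex.norm_real, RCLike.norm_conj, Real.norm_eq_abs,
        abs_of_pos (Real.exp_pos _)]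
      have h1 : Real.exp q.1 ≤ Real.exp R := Real.exp_le_exp.mpr hq.2
      have h2 := hC2 q.2 q.1
      have h3 := hC5 _ hzU q.1
      have h4 := hC4 _ hzU q.2 q.1
      gcongr)
  have h5 : ‖Fz ρ α k p ε f R z‖ ≤ ∫ q, ‖Kz ρ α k p ε f z q‖ ∂(mR ρ R) := by
    unfold Fz
    exact norm_integral_le_integral_norm _
  refine h5.trans ?_
  rw [h3.2]
  unfold J1
  rw [← integral_const_mul]
  -- measurability of the right side on the interval
  have hR1 : IntegrableOn (fun x => Real.sqrt B * (Real.exp x * (Vf ρ α k f x + ε) ^ (p / 2)))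
      (Icc (-R) R) := by
    refine int_bdd (volume.restrict (Icc (-R) R)) _ ?_
      (Real.sqrt B * (Real.exp R * (C + ε) ^ (p / 2))) ?_
    · apply Measurable.aestronglyMeasurable
      exact (Real.measurable_exp.mul ((hVm.add_const ε).pow_const _)).const_mul _
    · filter_upwards [ae_restrict_mem measurableSet_Icc] with x hx
      have h0 := hVe x
      rw [Real.norm_eq_abs, abs_of_nonneg (by positivity)]
      have h1 : Real.exp x ≤ Real.exp R := Real.exp_le_exp.mpr hx.2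
      have h2 : (Vf ρ α k f x + ε) ^ (p / 2) ≤ (C + ε) ^ (p / 2) :=
        Real.rpow_le_rpow h0.le (by have := hC3 x; linarith) (by linarith)
      gcongr
  have hsm := Sv_sm α k hα hk f hf
  have hsg := Sv_sm α k hα hk g hgc
  have hpt : ∀ x, ∫ ω, ‖Kz ρ α k p ε f z (x, ω)‖ ∂ρ ≤
      Real.sqrt B * (Real.exp x * (Vf ρ α k f x + ε) ^ (p / 2)) := by
    intro x
    have e1 : ∀ ω, ‖Kz ρ α k p ε f z (x, ω)‖ = Real.exp x *
      (Vf ρ α k f x + ε) ^ (p / 2 - 1 / 2) * (‖Sv α k f ω x‖ * ‖Sv α k g ω x‖) := fun ω => hKn (x, ω)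
    simp_rw [e1]
    rw [integral_const_mul]
    have hc := Cauchy ρ (fun ω => ‖Sv α k f ω x‖) (fun ω => ‖Sv α k g ω x‖)
      (int_bdd ρ _ ((hsm x).norm.pow_const 2).aestronglyMeasurable (C ^ 2)
        (Filter.Eventually.of_forall fun ω => by
          rw [Real.norm_eq_abs, abs_of_nonneg (by positivity)]
          exact pow_le_pow_left₀ (norm_nonneg _) (hC2 ω x) 2))
      (int_bdd ρ _ ((hsg x).norm.pow_const 2).aestronglyMeasurable (C ^ 2)
        (Filter.Eventually.of_forall fun ω => by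
          rw [Real.norm_eq_abs, abs_of_nonneg (by positivity)]
          exact pow_le_pow_left₀ (norm_nonneg _) (hC4 z hzU ω x) 2))
      (int_bdd ρ _ ((hsm x).norm.mul (hsg x).norm).aestronglyMeasurable (C * C)
        (Filter.Eventually.of_forall fun ω => by
          rw [Real.norm_eq_abs, abs_of_nonneg (by positivity)]
          exact mul_le_mul (hC2 ω x) (hC4 z hzU ω x) (norm_nonneg _) hC0))
    have h6 : ∫ ω, ‖Sv α k f ω x‖ * ‖Sv α k g ω x‖ ∂ρ ≤ Real.sqrt (Vf ρ α k f x + ε) * Real.sqrt B := by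
      refine hc.trans ?_
      rw [← Real.sqrt_mul (hVe x).le]
      apply Real.sqrt_le_sqrt
      have h7 : ∫ ω, ‖Sv α k f ω x‖ ^ 2 ∂ρ = Vf ρ α k f x := rfl
      have h8 : ∫ ω, ‖Sv α k g ω x‖ ^ 2 ∂ρ = Vf ρ α k g x := rfl
      rw [h7, h8]
      have h9 := hVg x
      have h10 := Vf_nonneg (ρ := ρ) (α := α) (k := k) (f := g) x
      exact mul_le_mul (by linarith) h9 h10 (hVe x).le
    have h11 : 0 ≤ Real.exp x * (Vf ρ α k f x + ε) ^ (p / 2 - 1 / 2) := by
      have := hVe x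
      positivity
    refine (mul_le_mul_of_nonneg_left h6 h11).trans (le_of_eq ?_)
    have h12 : (Vf ρ α k f x + ε) ^ (p / 2) =
        (Vf ρ α k f x + ε) ^ (p / 2 - 1 / 2) * Real.sqrt (Vf ρ α k f x + ε) := by
      rw [Real.sqrt_eq_rpow, ← Real.rpow_add (hVe x)]
      congr 1
      ring
    rw [h12]
    ring
  refine integral_mono_of_nonneg ?_ hR1 ?_
  · exact Filter.Eventually.of_forall fun x => integral_nonneg fun ω => norm_nonneg _
  · exact Filter.Eventually.of_forall hpt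

include hM hα hk hαM hkM h2 hi hA hB hp hε hf hfc in
theorem interp_eps : I1 ρ α k p f ε R ≤
    Real.sqrt (A * N1 ε f p * I1 ρ α k p f ε R) ^ (2 / p) *
      (Real.sqrt B * J1 ρ α k p f ε R) ^ (1 - 2 / p) := by
  obtain ⟨h3, h4, -⟩ := Fz_three ρ α k M hM hα hk hαM hkM p hp ε hε f hf hfc R
  have hp0 : 0 < p := by linarith
  have h20 : 0 < 2 / p := by positivity
  have h21 : 2 / p ≤ 1 := by rw [div_le_one hp0]; exact hp
  have hz : ((1 - 2 / p : ℝ) : ℂ) ∈ Complex.HadamardThreeLines.verticalClosedStrip 0 1 := by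
    constructor
    · rw [Complex.ofReal_re]; linarith
    · rw [Complex.ofReal_re]; linarith
  have key := Complex.HadamardThreeLines.norm_le_interp_of_mem_verticalClosedStrip'
    (f := Fz ρ α k p ε f R) (z := ((1 - 2 / p : ℝ) : ℂ)) (l := 0) (u := 1)
    (a := Real.sqrt (A * N1 ε f p * I1 ρ α k p f ε R)) (b := Real.sqrt B * J1 ρ α k p f ε R)
    (by norm_num) hz h3 h4
    (fun z hz => Fz_zero ρ α k M hM hα hk hαM hkM A hA h2 p hp ε hε f hf hfc R z hz)
    (fun z hz => Fz_one ρ α k M hM hα hk hαM hkM B hB hi p hp ε hε f hf hfc R z hz)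
  rw [Fz_theta ρ α k M hM hα hk hαM hkM p hp ε hε f hf hfc R] at key
  rw [Complex.norm_real, Real.norm_eq_abs, Complex.ofReal_re] at key
  have e1 : 1 - (1 - 2 / p - 0) / (1 - 0) = 2 / p := by ring
  have e2 : (1 - 2 / p - 0) / (1 - 0) = 1 - 2 / p := by ring
  rw [e1, e2] at key
  exact (le_abs_self _).trans key

/-- the limit -/
def I0 (R : ℝ) : ℝ := ∫ x in Icc (-R) R, Real.exp x * (Vf ρ α k f x) ^ (p / 2)

theorem eps_tendsto : Tendsto (fun m : ℕ => 1 / ((m : ℝ) + 1)) atTop (𝓝 0) :=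
  tendsto_one_div_add_atTop_nhds_zero_nat

theorem rpow_tendsto (v q : ℝ) (hq : 0 ≤ q) :
    Tendsto (fun m : ℕ => (v + 1 / ((m : ℝ) + 1)) ^ q) atTop (𝓝 (v ^ q)) := by
  have h1 : Tendsto (fun m : ℕ => v + 1 / ((m : ℝ) + 1)) atTop (𝓝 v) := by
    have := (tendsto_const_nhds (x := v)).add eps_tendsto
    rwa [add_zero] at this
  exact ((Real.continuousAt_rpow_const v q (Or.inr hq)).tendsto).comp h1

theorem mul_rpow_pred (v p : ℝ) (hv : 0 ≤ v) (hp : 2 ≤ p) : v * v ^ (p / 2 - 1) = v ^ (p / 2) := by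
  rcases eq_or_lt_of_le hv with h | h
  · rw [← h, zero_mul, Real.zero_rpow (by linarith)]
  · have : v ^ (p / 2) = v ^ (1 : ℝ) * v ^ (p / 2 - 1) := by
      rw [← Real.rpow_add h]
      congr 1
      ring
    rw [this, Real.rpow_one]

include hM hα hk hαM hkM hp hf hfc in
theorem I1_lim : Tendsto (fun m : ℕ => I1 ρ α k p f (1 / ((m : ℝ) + 1)) R) atTop
    (𝓝 (I0 ρ α k p f R)) := by
  obtain ⟨C, hC0, hC1, hC2, hC3, hC4, hC5⟩ := bounds ρ α k M hM hαM hkM p hp 1 one_pos f hf hfc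
  have hVm := Vf_meas (ρ := ρ) hα hk hf
  unfold I1 I0
  refine tendsto_integral_of_dominated_convergence (fun x => Real.exp R * (C * (C + 1) ^ (p / 2 - 1)))
    ?_ ?_ ?_ ?_
  · intro m
    apply Measurable.aestronglyMeasurable
    exact Real.measurable_exp.mul (hVm.mul ((hVm.add_const _).pow_const _))
  · exact integrable_const _
  · intro m
    filter_upwards [ae_restrict_mem measurableSet_Icc] with x hx
    have h0 := Vf_nonneg (ρ := ρ) (α := α) (k := k) (f := f) x
    have hm : 0 < 1 / ((m : ℝ) + 1) := by positivity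
    have hm1 : 1 / ((m : ℝ) + 1) ≤ 1 := by
      rw [div_le_one (by positivity)]
      have : (0 : ℝ) ≤ m := Nat.cast_nonneg m
      linarith
    rw [Real.norm_eq_abs, abs_of_nonneg (by positivity)]
    have h1 : Real.exp x ≤ Real.exp R := Real.exp_le_exp.mpr hx.2
    have h2 : (Vf ρ α k f x + 1 / ((m : ℝ) + 1)) ^ (p / 2 - 1) ≤ (C + 1) ^ (p / 2 - 1) :=
      Real.rpow_le_rpow (by positivity) (by have := hC3 x; linarith) (by linarith)
    have h3 := hC3 x
    gcongr
  · refine Filter.Eventually.of_forall fun x => ?_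
    refine Tendsto.const_mul _ ?_
    rw [← mul_rpow_pred _ p (Vf_nonneg x) hp]
    exact (rpow_tendsto _ _ (by linarith)).const_mul _

include hM hα hk hαM hkM hp hf hfc in
theorem J1_lim : Tendsto (fun m : ℕ => J1 ρ α k p f (1 / ((m : ℝ) + 1)) R) atTop
    (𝓝 (I0 ρ α k p f R)) := by
  obtain ⟨C, hC0, hC1, hC2, hC3, hC4, hC5⟩ := bounds ρ α k M hM hαM hkM p hp 1 one_pos f hf hfc
  have hVm := Vf_meas (ρ := ρ) hα hk hf
  unfold J1 I0
  refine tendsto_integral_of_dominated_convergence (fun x => Real.exp R * (C + 1) ^ (p / 2))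
    ?_ ?_ ?_ ?_
  · intro m
    apply Measurable.aestronglyMeasurable
    exact Real.measurable_exp.mul ((hVm.add_const _).pow_const _)
  · exact integrable_const _
  · intro m
    filter_upwards [ae_restrict_mem measurableSet_Icc] with x hx
    have h0 := Vf_nonneg (ρ := ρ) (α := α) (k := k) (f := f) x
    have hm : 0 < 1 / ((m : ℝ) + 1) := by positivity
    have hm1 : 1 / ((m : ℝ) + 1) ≤ 1 := by
      rw [div_le_one (by positivity)]
      have : (0 : ℝ) ≤ m := Nat.cast_nonneg m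
      linarith
    rw [Real.norm_eq_abs, abs_of_nonneg (by positivity)]
    have h1 : Real.exp x ≤ Real.exp R := Real.exp_le_exp.mpr hx.2
    have h2 : (Vf ρ α k f x + 1 / ((m : ℝ) + 1)) ^ (p / 2) ≤ (C + 1) ^ (p / 2) :=
      Real.rpow_le_rpow (by positivity) (by have := hC3 x; linarith) (by linarith)
    gcongr
  · refine Filter.Eventually.of_forall fun x => ?_
    refine Tendsto.const_mul _ ?_
    exact rpow_tendsto _ _ (by linarith)

include hp hf hfc in
theorem N1_lim : Tendsto (fun m : ℕ => N1 (1 / ((m : ℝ) + 1)) f p) atTop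
    (𝓝 (∫ x, Real.exp x * ‖f x‖ ^ p)) := by
  unfold N1
  refine tendsto_integral_of_dominated_convergence
    (fun x => Real.exp x * (‖f x‖ ^ 2 * (‖f x‖ ^ 2 + 1) ^ (p / 2 - 1))) ?_ ?_ ?_ ?_
  · intro m
    apply Measurable.aestronglyMeasurable
    have hfm := hf.measurable.norm
    exact Real.measurable_exp.mul ((hfm.pow_const 2).mul (((hfm.pow_const 2).add_const _).pow_const _))
  · have hc : Continuous fun x => Real.exp x * (‖f x‖ ^ 2 * (‖f x‖ ^ 2 + 1) ^ (p / 2 - 1)) := by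
      have h1 : Continuous fun x => (‖f x‖ ^ 2 + 1) ^ (p / 2 - 1) :=
        Continuous.rpow_const (by fun_prop) fun x => Or.inl (by positivity)
      have h2 : Continuous fun x => ‖f x‖ ^ 2 := by fun_prop
      exact Real.continuous_exp.mul (h2.mul h1)
    refine hc.integrable_of_hasCompactSupport ?_
    have h3 : HasCompactSupport fun x => ‖f x‖ ^ 2 := by
      refine hfc.comp_left (g := fun c : ℂ => ‖c‖ ^ 2) ?_
      simp
    exact (h3.mul_right).mul_left
  · intro m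
    refine Filter.Eventually.of_forall fun x => ?_
    have hm : 0 < 1 / ((m : ℝ) + 1) := by positivity
    have hm1 : 1 / ((m : ℝ) + 1) ≤ 1 := by
      rw [div_le_one (by positivity)]
      have : (0 : ℝ) ≤ m := Nat.cast_nonneg m
      linarith
    rw [Real.norm_eq_abs, abs_of_nonneg (by positivity)]
    have h2 : (‖f x‖ ^ 2 + 1 / ((m : ℝ) + 1)) ^ (p / 2 - 1) ≤ (‖f x‖ ^ 2 + 1) ^ (p / 2 - 1) :=
      Real.rpow_le_rpow (by positivity) (by linarith) (by linarith)
    gcongr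
  · refine Filter.Eventually.of_forall fun x => ?_
    refine Tendsto.const_mul _ ?_
    have e : ‖f x‖ ^ p = ‖f x‖ ^ 2 * (‖f x‖ ^ 2) ^ (p / 2 - 1) := by
      rw [mul_rpow_pred _ p (by positivity) hp, ← Real.rpow_natCast (‖f x‖) 2,
        ← Real.rpow_mul (norm_nonneg _)]
      congr 1
      push_cast
      ring
    rw [e]
    exact (rpow_tendsto _ _ (by linarith)).const_mul _

include hM hα hk hαM hkM h2 hi hA hB hp hf hfc in
theorem interp_zero : I0 ρ α k p f R ≤
    Real.sqrt (A * (∫ x, Real.exp x * ‖f x‖ ^ p) * I0 ρ α k p f R) ^ (2 / p) *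
      (Real.sqrt B * I0 ρ α k p f R) ^ (1 - 2 / p) := by
  have hp0 : 0 < p := by linarith
  have h20 : 0 < 2 / p := by positivity
  have h21 : 2 / p ≤ 1 := by rw [div_le_one hp0]; exact hp
  have hI := I1_lim ρ α k M hM hα hk hαM hkM p hp f hf hfc R
  have hJ := J1_lim ρ α k M hM hα hk hαM hkM p hp f hf hfc R
  have hN := N1_lim p hp f hf hfc
  refine le_of_tendsto_of_tendsto' hI ?_ fun m =>
    interp_eps ρ α k M hM hα hk hαM hkM A B hA hB h2 hi p hp (1 / ((m : ℝ) + 1)) (by positivity) f hf hfc R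
  apply Tendsto.mul
  · have h1 := ((hN.const_mul A).mul hI)
    have h2 := (Real.continuous_sqrt.tendsto _).comp h1
    exact ((Real.continuousAt_rpow_const _ (2 / p) (Or.inr h20.le)).tendsto).comp h2
  · have h1 := hJ.const_mul (Real.sqrt B)
    exact ((Real.continuousAt_rpow_const _ (1 - 2 / p) (Or.inr (by linarith))).tendsto).comp h1

include hM hα hk hαM hkM h2 hi hA hB hp hf hfc in
theorem interp_R : I0 ρ α k p f R ≤ A * B ^ (p / 2 - 1) * ∫ x, Real.exp x * ‖f x‖ ^ p := by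
  have hp0 : 0 < p := by linarith
  have key := interp_zero ρ α k M hM hα hk hαM hkM A B hA hB h2 hi p hp f hf hfc R
  set I := I0 ρ α k p f R with hI
  set N := ∫ x, Real.exp x * ‖f x‖ ^ p with hN
  have hN0 : 0 ≤ N := integral_nonneg fun x => by positivity
  have hI0 : 0 ≤ I := by
    rw [hI]
    unfold I0
    refine integral_nonneg fun x => ?_
    have := Vf_nonneg (ρ := ρ) (α := α) (k := k) (f := f) x
    positivity
  rcases eq_or_lt_of_le hI0 with h | h
  · rw [← h]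
    positivity
  · have e1 : Real.sqrt (A * N * I) ^ (2 / p) = (A * N) ^ (1 / p) * I ^ (1 / p) := by
      rw [Real.sqrt_eq_rpow, ← Real.rpow_mul (by positivity), Real.mul_rpow (by positivity) h.le]
      congr 2 <;> field_simp
    have e2 : (Real.sqrt B * I) ^ (1 - 2 / p) = B ^ (1 / 2 - 1 / p) * I ^ (1 - 2 / p) := by
      rw [Real.mul_rpow (Real.sqrt_nonneg _) h.le, Real.sqrt_eq_rpow, ← Real.rpow_mul hB]
      congr 2
      field_simp
    rw [e1, e2] at key
    have e3 : (A * N) ^ (1 / p) * I ^ (1 / p) * (B ^ (1 / 2 - 1 / p) * I ^ (1 - 2 / p)) =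
        (A * N) ^ (1 / p) * B ^ (1 / 2 - 1 / p) * I ^ (1 - 1 / p) := by
      rw [show (1 - 1 / p : ℝ) = 1 / p + (1 - 2 / p) from by ring, Real.rpow_add h]
      ring
    rw [e3] at key
    have e4 : I = I ^ (1 / p) * I ^ (1 - 1 / p) := by
      rw [← Real.rpow_add h]
      rw [show (1 / p + (1 - 1 / p) : ℝ) = 1 from by ring, Real.rpow_one]
    have h5 : 0 < I ^ (1 - 1 / p) := Real.rpow_pos_of_pos h _
    have h6 : I ^ (1 / p) ≤ (A * N) ^ (1 / p) * B ^ (1 / 2 - 1 / p) := by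
      rw [e4] at key
      have h7 : I ^ (1 / p) * I ^ (1 - 1 / p) ≤
          (A * N) ^ (1 / p) * B ^ (1 / 2 - 1 / p) * I ^ (1 - 1 / p) := by
        rw [← e4] at key ⊢
        exact key
      exact le_of_mul_le_mul_right h7 h5
    have h8 := Real.rpow_le_rpow (by positivity) h6 hp0.le
    rw [← Real.rpow_mul h.le, Real.mul_rpow (by positivity) (by positivity),
      ← Real.rpow_mul (by positivity), ← Real.rpow_mul hB] at h8
    have e5 : 1 / p * p = 1 := by field_simp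
    have e6 : (1 / 2 - 1 / p) * p = p / 2 - 1 := by field_simp
    rw [e5, Real.rpow_one, Real.rpow_one, e6] at h8
    calc I ≤ A * N * B ^ (p / 2 - 1) := h8
      _ = A * B ^ (p / 2 - 1) * N := by ring

include hM hα hk hαM hkM h2 hi hA hB hp hf hfc in
/-- **Riesz-Thorin between `2` and `∞`**, vector valued. -/
theorem rt_vec : ∫⁻ y, ENNReal.ofReal (Real.exp y * Vf ρ α k f y ^ (p / 2)) ≤
    ENNReal.ofReal (A * B ^ (p / 2 - 1) * ∫ x, Real.exp x * ‖f x‖ ^ p) := by
  have hVm := Vf_meas (ρ := ρ) hα hk hf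
  have hmeas : Measurable fun y => ENNReal.ofReal (Real.exp y * Vf ρ α k f y ^ (p / 2)) :=
    (Real.measurable_exp.mul (hVm.pow_const _)).ennreal_ofReal
  have hcov : AECover (volume : Measure ℝ) atTop (fun m : ℕ => Icc (-(m : ℝ)) (m : ℝ)) :=
    aecover_Icc (tendsto_neg_atTop_atBot.comp tendsto_natCast_atTop_atTop)
      tendsto_natCast_atTop_atTop
  have hlim := hcov.lintegral_tendsto_of_countably_generated hmeas.aemeasurable
  refine le_of_tendsto' hlim fun m => ?_
  obtain ⟨C, hC0, hC1, hC2, hC3, hC4, hC5⟩ := bounds ρ α k M hM hαM hkM p hp 1 one_pos f hf hfc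
  have h1 := interp_R ρ α k M hM hα hk hαM hkM A B hA hB h2 hi p hp f hf hfc (m : ℝ)
  rw [← ofReal_integral_eq_lintegral_ofReal]
  · exact ENNReal.ofReal_le_ofReal h1
  · refine int_bdd (volume.restrict (Icc (-(m : ℝ)) (m : ℝ))) _ ?_
      (Real.exp m * C ^ (p / 2)) ?_
    · apply Measurable.aestronglyMeasurable
      exact Real.measurable_exp.mul (hVm.pow_const _)
    · filter_upwards [ae_restrict_mem measurableSet_Icc] with x hx
      have h0 := Vf_nonneg (ρ := ρ) (α := α) (k := k) (f := f) x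
      rw [Real.norm_eq_abs, abs_of_nonneg (by positivity)]
      have h1 : Real.exp x ≤ Real.exp m := Real.exp_le_exp.mpr hx.2
      have h2 : (Vf ρ α k f x) ^ (p / 2) ≤ C ^ (p / 2) :=
        Real.rpow_le_rpow h0 (hC3 x) (by linarith)
      gcongr
  · refine Filter.Eventually.of_forall fun x => ?_
    have h0 := Vf_nonneg (ρ := ρ) (α := α) (k := k) (f := f) x
    simp only [Pi.zero_apply]
    positivity

end main

end Helper62.RTV
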